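import Mathlib

set_option autoImplicit false

universe u v

namespace Pool.Agent.Lib.MP_d4f5ca_al

/-- A module is distributive if `F ∩ (G + H) = (F ∩ G) + (F ∩ H)` for all submodules. -/
def IsDistributiveModule (R : Type v) (M : Type u) [Ring R] [AddCommGroup M] [Module R M] :
    Prop :=
  ∀ F G H : Submodule R M, F ⊓ (G ⊔ H) = (F ⊓ G) ⊔ (F ⊓ H)

/-- A module is semidistributive if it is the (internal) direct sum of a family of submodules,
each of which is a distributive module. -/
def IsSemidistributiveModule (R : Type v) (M : Type u) [Ring R] [AddCommGroup M] [Module R M] :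
    Prop :=
  ∃ (ι : Type u) (_ : DecidableEq ι) (N : ι → Submodule R M),
    DirectSum.IsInternal N ∧ ∀ i, IsDistributiveModule R (N i)

/-- A ring is right semidistributive if its right regular module is semidistributive.
(Right `A`-modules are modules over the opposite ring `Aᵐᵒᵖ`.) -/
def IsRightSemidistributive (A : Type u) [Ring A] : Prop :=
  IsSemidistributiveModule Aᵐᵒᵖ A

/-- A ring is left semidistributive if its left regular module is semidistributive. -/
def IsLeftSemidistributive (A : Type u) [Ring A] : Prop :=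
  IsSemidistributiveModule A A

/-- A ring is right Artinian if its right regular module is Artinian. -/
def IsRightArtinian (A : Type u) [Ring A] : Prop := IsArtinian Aᵐᵒᵖ A

/-- Stephenson's criterion (the direction we need). -/
theorem isDistributiveModule_of_forall {R : Type v} {M : Type u} [Ring R] [AddCommGroup M]
    [Module R M]
    (h : ∀ m n : M, ∃ a : R, (∃ c : R, a • m = c • n) ∧ (∃ c : R, (1 - a) • n = c • m)) :
    IsDistributiveModule R M := by
  intro F G H
  apply le_antisymm
  · rintro x ⟨hxF, hxGH⟩
    obtain ⟨g, hg, k, hk, rfl⟩ := Submodule.mem_sup.mp hxGH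
    obtain ⟨a, ⟨c, hc⟩, ⟨d, hd⟩⟩ := h g k
    rw [Submodule.mem_sup]
    refine ⟨(1 - a) • (g + k), ⟨F.smul_mem _ hxF, ?_⟩, a • (g + k), ⟨F.smul_mem _ hxF, ?_⟩, ?_⟩
    · show (1 - a) • (g + k) ∈ G
      rw [smul_add, hd]
      exact G.add_mem (G.smul_mem _ hg) (G.smul_mem _ hg)
    · show a • (g + k) ∈ H
      rw [smul_add, hc]
      exact H.add_mem (H.smul_mem _ hk) (H.smul_mem _ hk)
    · rw [← add_smul, sub_add_cancel, one_smul]
  · exact sup_le (inf_le_inf_left F le_sup_left) (inf_le_inf_left F le_sup_right)

/-- A finite family of submodules with a matching family of projections is an internal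
direct sum. -/
theorem isInternal_of_proj {R : Type v} {M : Type u} [Ring R] [AddCommGroup M] [Module R M]
    {ι : Type u} [Fintype ι] [DecidableEq ι] (N : ι → Submodule R M) (π : ι → M →ₗ[R] M)
    (h1 : ∀ i x, π i x ∈ N i) (h2 : ∀ i, ∀ x ∈ N i, π i x = x)
    (h3 : ∀ i j, i ≠ j → ∀ x ∈ N j, π i x = 0) (h4 : ∀ x, ∑ i, π i x = x) :
    DirectSum.IsInternal N := by
  rw [DirectSum.isInternal_submodule_iff_iSupIndep_and_iSup_eq_top]
  constructor
  · rw [iSupIndep_def]
    intro i
    rw [Submodule.disjoint_def]
    intro x hx hx'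
    have h5 : (⨆ j, ⨆ (_ : j ≠ i), N j) ≤ LinearMap.ker (π i) := by
      apply iSup_le
      intro j
      apply iSup_le
      intro hj y hy
      exact h3 i j (Ne.symm hj) y hy
    have h6 := h5 hx'
    rw [LinearMap.mem_ker, h2 i x hx] at h6
    exact h6
  · rw [eq_top_iff]
    intro x _
    rw [← h4 x]
    exact Submodule.sum_mem _ fun i _ => Submodule.mem_iSup_of_mem i (h1 i x)

/-- The right ideal `{x | e x = x}`. -/
def rightPeirce {A : Type u} [Ring A] (e : A) : Submodule Aᵐᵒᵖ A where
  carrier := {x | e * x = x}
  add_mem' {x y} hx hy := by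
    show e * (x + y) = x + y
    rw [mul_add, show e * x = x from hx, show e * y = y from hy]
  zero_mem' := mul_zero e
  smul_mem' c x hx := by
    show e * (c • x) = c • x
    rw [MulOpposite.smul_eq_mul_unop, ← mul_assoc, show e * x = x from hx]

/-- The left ideal `{x | x e = x}`. -/
def leftPeirce {A : Type u} [Ring A] (e : A) : Submodule A A where
  carrier := {x | x * e = x}
  add_mem' {x y} hx hy := by
    show (x + y) * e = x + y
    rw [add_mul, show x * e = x from hx, show y * e = y from hy]
  zero_mem' := zero_mul e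
  smul_mem' c x hx := by
    show (c * x) * e = c * x
    rw [mul_assoc, show x * e = x from hx]

theorem isInternal_rightPeirce {A : Type u} [Ring A] {ι : Type u} [Fintype ι] [DecidableEq ι]
    (e : ι → A) (h1 : ∑ i, e i = 1) (h2 : ∀ i, e i * e i = e i)
    (h3 : ∀ i j, i ≠ j → e i * e j = 0) :
    DirectSum.IsInternal (fun i => rightPeirce (e i)) := by
  refine isInternal_of_proj _ (fun i =>
    { toFun := fun x => e i * x
      map_add' := fun x y => mul_add _ _ _
      map_smul' := fun c x => by
        rw [MulOpposite.smul_eq_mul_unop, RingHom.id_apply, MulOpposite.smul_eq_mul_unop,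
          mul_assoc] }) ?_ ?_ ?_ ?_
  · intro i x
    show e i * (e i * x) = e i * x
    rw [← mul_assoc, h2]
  · intro i x hx
    exact hx
  · intro i j hij x hx
    show e i * x = 0
    rw [← show e j * x = x from hx, ← mul_assoc, h3 i j hij, zero_mul]
  · intro x
    show ∑ i, e i * x = x
    rw [← Finset.sum_mul, h1, one_mul]

theorem isInternal_leftPeirce {A : Type u} [Ring A] {ι : Type u} [Fintype ι] [DecidableEq ι]
    (e : ι → A) (h1 : ∑ i, e i = 1) (h2 : ∀ i, e i * e i = e i)
    (h3 : ∀ i j, i ≠ j → e i * e j = 0) :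
    DirectSum.IsInternal (fun i => leftPeirce (e i)) := by
  refine isInternal_of_proj _ (fun i =>
    { toFun := fun x => x * e i
      map_add' := fun x y => add_mul _ _ _
      map_smul' := fun c x => by
        rw [RingHom.id_apply, smul_eq_mul, smul_eq_mul, mul_assoc] }) ?_ ?_ ?_ ?_
  · intro i x
    show (x * e i) * e i = x * e i
    rw [mul_assoc, h2]
  · intro i x hx
    exact hx
  · intro i j hij x hx
    show x * e i = 0
    rw [← show x * e j = x from hx, mul_assoc, h3 j i (Ne.symm hij), mul_zero]
  · intro x
    show ∑ i, x * e i = x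
    rw [← Finset.mul_sum, h1, mul_one]

end Pool.Agent.Lib.MP_d4f5ca_al
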