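import Mathlib

set_option autoImplicit false

universe u

namespace Pool.Agent.Lib.MP_d4f5ca_al

/-- The underlying set of the skew Laurent series ring: formal series `∑_{i ≥ n} a_i x^i`
with coefficients in `A` (written on the left), that is, functions `ℤ → A` that vanish
below some integer. -/
@[ext]
structure SkewLaurent (A : Type u) [Ring A] (φ : A ≃+* A) : Type u where
  /-- the coefficient of `x^n`. -/
  coeff : ℤ → A
  bdd : ∃ N : ℤ, ∀ n : ℤ, n < N → coeff n = 0

namespace SkewLaurent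

variable {A : Type u} [Ring A] {φ : A ≃+* A}

instance : Zero (SkewLaurent A φ) := ⟨⟨fun _ => 0, ⟨0, fun _ _ => rfl⟩⟩⟩

instance : Add (SkewLaurent A φ) :=
  ⟨fun f g => ⟨fun n => f.coeff n + g.coeff n, by
    obtain ⟨N, hN⟩ := f.bdd
    obtain ⟨M, hM⟩ := g.bdd
    exact ⟨min N M, fun n hn => by
      rw [hN n (lt_of_lt_of_le hn (min_le_left _ _)),
        hM n (lt_of_lt_of_le hn (min_le_right _ _)), add_zero]⟩⟩⟩

instance : Neg (SkewLaurent A φ) :=
  ⟨fun f => ⟨fun n => - f.coeff n, by
    obtain ⟨N, hN⟩ := f.bdd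
    exact ⟨N, fun n hn => by rw [hN n hn, neg_zero]⟩⟩⟩

/-- The monomial `a x^k`. -/
def single (k : ℤ) (a : A) : SkewLaurent A φ :=
  ⟨fun n => if n = k then a else 0, ⟨k, fun n hn => if_neg (ne_of_lt hn)⟩⟩

instance : One (SkewLaurent A φ) := ⟨single 0 1⟩

/-- Multiplication extends the rule `x a = φ(a) x` (so `(a x^i) (b x^j) = a φ^i(b) x^(i+j)`):
the coefficient of `x^n` in `f g` is `∑_i f_i φ^i(g_{n-i})`, a sum with finitely many nonzero
terms. -/
noncomputable instance : Mul (SkewLaurent A φ) :=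
  ⟨fun f g => ⟨fun n => ∑ᶠ i : ℤ, f.coeff i * ((φ ^ i : RingAut A) (g.coeff (n - i))), by
    obtain ⟨N, hN⟩ := f.bdd
    obtain ⟨M, hM⟩ := g.bdd
    refine ⟨N + M, fun n hn => ?_⟩
    have h0 : (fun i : ℤ => f.coeff i * ((φ ^ i : RingAut A) (g.coeff (n - i)))) = fun _ => 0 := by
      funext i
      by_cases hi : i < N
      · rw [hN i hi, zero_mul]
      · rw [hM (n - i) (by omega), map_zero, mul_zero]
    rw [h0]
    exact finsum_zero⟩⟩

@[simp] theorem coeff_zero (n : ℤ) : (0 : SkewLaurent A φ).coeff n = 0 := rfl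
@[simp] theorem coeff_add (f g : SkewLaurent A φ) (n : ℤ) :
    (f + g).coeff n = f.coeff n + g.coeff n := rfl
@[simp] theorem coeff_neg (f : SkewLaurent A φ) (n : ℤ) : (-f).coeff n = - f.coeff n := rfl
theorem coeff_single (k : ℤ) (a : A) (n : ℤ) :
    (single k a : SkewLaurent A φ).coeff n = if n = k then a else 0 := rfl
theorem coeff_one (n : ℤ) : (1 : SkewLaurent A φ).coeff n = if n = 0 then 1 else 0 := rfl
theorem coeff_mul (f g : SkewLaurent A φ) (n : ℤ) :
    (f * g).coeff n = ∑ᶠ i : ℤ, f.coeff i * ((φ ^ i : RingAut A) (g.coeff (n - i))) := rfl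

/-- The additive endomorphism `a ↦ c φ^n(a)` of `A`. -/
def endo (φ : A ≃+* A) (n : ℤ) (c : A) : Module.End ℤ A where
  toFun a := c * ((φ ^ n : RingAut A) a)
  map_add' a b := by rw [map_add, mul_add]
  map_smul' k a := by rw [map_zsmul, RingHom.id_apply, mul_smul_comm]

theorem endo_apply (n : ℤ) (c a : A) : endo φ n c a = c * ((φ ^ n : RingAut A) a) := rfl

/-- Embedding (of sets) into the ordinary Laurent series over the ring of additive
endomorphisms of `A`; `c x^n` is sent to `endo φ n c * X^n`. -/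
noncomputable def toEnd (f : SkewLaurent A φ) : HahnSeries ℤ (Module.End ℤ A) :=
  HahnSeries.ofSuppBddBelow
    (fun n => endo φ n (f.coeff n))
    (by
      obtain ⟨N, hN⟩ := f.bdd
      refine ⟨N, fun n hn => ?_⟩
      by_contra hlt
      apply hn
      show endo φ n (f.coeff n) = 0
      ext a
      rw [endo_apply, hN n (not_le.mp hlt), zero_mul]
      rfl)

theorem toEnd_coeff (f : SkewLaurent A φ) (n : ℤ) :
    (toEnd f).coeff n = endo φ n (f.coeff n) := rfl

theorem toEnd_injective : Function.Injective (toEnd : SkewLaurent A φ → _) := by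
  intro f g h
  ext n
  have := congrArg (fun F : HahnSeries ℤ (Module.End ℤ A) => (F.coeff n) 1) h
  simpa [toEnd_coeff, endo_apply] using this

theorem toEnd_zero : toEnd (0 : SkewLaurent A φ) = 0 := by
  ext n a
  rw [toEnd_coeff, endo_apply]
  simp

theorem toEnd_one : toEnd (1 : SkewLaurent A φ) = 1 := by
  ext n a
  rw [toEnd_coeff, endo_apply, coeff_one, HahnSeries.coeff_one]
  by_cases hn : n = 0
  · subst hn
    simp
  · simp [hn]

theorem toEnd_add (f g : SkewLaurent A φ) : toEnd (f + g) = toEnd f + toEnd g := by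
  ext n a
  rw [HahnSeries.coeff_add, LinearMap.add_apply, toEnd_coeff, toEnd_coeff, toEnd_coeff,
    endo_apply, endo_apply, endo_apply, coeff_add, add_mul]

theorem toEnd_neg (f : SkewLaurent A φ) : toEnd (-f) = - toEnd f := by
  ext n a
  rw [HahnSeries.coeff_neg, LinearMap.neg_apply, toEnd_coeff, toEnd_coeff,
    endo_apply, endo_apply, coeff_neg, neg_mul]

theorem mem_support_toEnd (f : SkewLaurent A φ) (n : ℤ) :
    n ∈ (toEnd f).support ↔ f.coeff n ≠ 0 := by
  rw [HahnSeries.mem_support]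
  refine not_congr ⟨fun h => ?_, fun h => ?_⟩
  · have := congrArg (fun F : Module.End ℤ A => F 1) h
    simpa [toEnd_coeff, endo_apply] using this
  · ext a
    rw [toEnd_coeff, endo_apply, h, zero_mul]
    rfl

theorem endo_mul (m n : ℤ) (c d : A) :
    endo φ m c * endo φ n d = endo φ (m + n) (c * ((φ ^ m : RingAut A) d)) := by
  ext a
  rw [Module.End.mul_apply, endo_apply, endo_apply, endo_apply, map_mul, zpow_add,
    RingAut.mul_apply, mul_assoc]

theorem toEnd_mul (f g : SkewLaurent A φ) : toEnd (f * g) = toEnd f * toEnd g := by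
  ext n a
  rw [HahnSeries.coeff_mul, toEnd_coeff, endo_apply, coeff_mul, LinearMap.sum_apply]
  set S := Finset.antidiagonal (toEnd f).isPWO_support (toEnd g).isPWO_support n with hS
  have h1 : ∀ ij ∈ S, ((toEnd f).coeff ij.1 * (toEnd g).coeff ij.2) a =
      (f.coeff ij.1 * ((φ ^ ij.1 : RingAut A) (g.coeff (n - ij.1)))) * ((φ ^ n : RingAut A) a) := by
    intro ij hij
    rw [hS, Finset.mem_antidiagonal] at hij
    have h2 : ij.2 = n - ij.1 := by omega
    rw [toEnd_coeff, toEnd_coeff, endo_mul, endo_apply, hij.2.2, h2]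
  rw [Finset.sum_congr rfl h1, ← Finset.sum_mul]
  congr 1
  classical
  rw [finsum_eq_sum_of_support_subset (s := S.image Prod.fst)]
  · rw [Finset.sum_image]
    intro x hx y hy hxy
    rw [Finset.mem_coe, hS, Finset.mem_antidiagonal] at hx hy
    ext
    · exact hxy
    · omega
  · intro i hi
    rw [Function.mem_support] at hi
    rw [Finset.coe_image]
    refine ⟨(i, n - i), ?_, rfl⟩
    rw [Finset.mem_coe, hS, Finset.mem_antidiagonal, mem_support_toEnd, mem_support_toEnd]
    refine ⟨fun h => hi ?_, fun h => hi ?_, by simp⟩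
    · simp only at h
      rw [h, zero_mul]
    · simp only at h
      rw [h, map_zero, mul_zero]

instance : Sub (SkewLaurent A φ) := ⟨fun f g => f + -g⟩
instance : SMul ℕ (SkewLaurent A φ) :=
  ⟨fun k f => ⟨fun n => k • f.coeff n, by
    obtain ⟨N, hN⟩ := f.bdd
    exact ⟨N, fun n hn => by rw [hN n hn, smul_zero]⟩⟩⟩
instance : SMul ℤ (SkewLaurent A φ) :=
  ⟨fun k f => ⟨fun n => k • f.coeff n, by
    obtain ⟨N, hN⟩ := f.bdd
    exact ⟨N, fun n hn => by rw [hN n hn, smul_zero]⟩⟩⟩
instance : NatCast (SkewLaurent A φ) := ⟨fun k => single 0 (k : A)⟩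
instance : IntCast (SkewLaurent A φ) := ⟨fun k => single 0 (k : A)⟩
noncomputable instance : Pow (SkewLaurent A φ) ℕ := ⟨fun f k => npowRec k f⟩

theorem toEnd_sub (f g : SkewLaurent A φ) : toEnd (f - g) = toEnd f - toEnd g := by
  show toEnd (f + -g) = _
  rw [toEnd_add, toEnd_neg, sub_eq_add_neg]

theorem toEnd_nsmul (k : ℕ) (f : SkewLaurent A φ) : toEnd (k • f) = k • toEnd f := by
  ext n a
  rw [HahnSeries.coeff_smul, LinearMap.smul_apply, toEnd_coeff, toEnd_coeff, endo_apply,
    endo_apply]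
  show (k • f.coeff n) * _ = _
  rw [smul_mul_assoc]

theorem toEnd_zsmul (k : ℤ) (f : SkewLaurent A φ) : toEnd (k • f) = k • toEnd f := by
  ext n a
  rw [HahnSeries.coeff_smul, LinearMap.smul_apply, toEnd_coeff, toEnd_coeff, endo_apply,
    endo_apply]
  show (k • f.coeff n) * _ = _
  rw [smul_mul_assoc]

theorem toEnd_single (k : ℤ) (c : A) :
    toEnd (single k c : SkewLaurent A φ) = HahnSeries.single k (endo φ k c) := by
  ext n a
  rw [toEnd_coeff, coeff_single, HahnSeries.coeff_single]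
  by_cases hn : n = k
  · rw [if_pos hn, hn, if_pos rfl]
  · rw [if_neg hn, if_neg hn, endo_apply, zero_mul]
    rfl

theorem toEnd_natCast (k : ℕ) : toEnd ((k : ℕ) : SkewLaurent A φ) = (k : ℕ) := by
  show toEnd (single 0 (k : A)) = _
  rw [toEnd_single, ← HahnSeries.single_zero_natCast]
  congr 1
  ext a
  rw [endo_apply]
  simp

theorem toEnd_intCast (k : ℤ) : toEnd ((k : ℤ) : SkewLaurent A φ) = (k : ℤ) := by
  show toEnd (single 0 (k : A)) = _
  rw [toEnd_single, ← HahnSeries.single_zero_intCast]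
  congr 1
  ext a
  rw [endo_apply]
  simp

theorem toEnd_pow (f : SkewLaurent A φ) (k : ℕ) : toEnd (f ^ k) = toEnd f ^ k := by
  induction k with
  | zero => exact toEnd_one.trans (pow_zero _).symm
  | succ k ih =>
    rw [pow_succ, ← ih]
    exact toEnd_mul (f ^ k) f

/-- The skew Laurent series ring `A((x, φ))`. -/
noncomputable instance : Ring (SkewLaurent A φ) :=
  toEnd_injective.ring toEnd toEnd_zero toEnd_one toEnd_add toEnd_mul toEnd_neg toEnd_sub
    (fun f k => toEnd_nsmul f k) (fun f k => toEnd_zsmul f k) toEnd_pow toEnd_natCast toEnd_intCast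

end SkewLaurent

end Pool.Agent.Lib.MP_d4f5ca_al
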