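import Mathlib
import Pool.Agent.Lib.MP_d4f5ca_al.Defs
import Pool.Agent.Lib.MP_d4f5ca_al.SkewLaurent

set_option autoImplicit false

universe u

namespace Pool.Agent.Lib.MP_d4f5ca_al

/-- The ring of matrices `[[p, a, b], [0, q, 0], [0, 0, r]]` over `K`. -/
@[ext]
structure Tri (K : Type u) : Type u where
  p : K
  a : K
  b : K
  q : K
  r : K

namespace Tri

variable {K : Type u} [Field K]

instance : Zero (Tri K) := ⟨⟨0, 0, 0, 0, 0⟩⟩
instance : One (Tri K) := ⟨⟨1, 0, 0, 1, 1⟩⟩
instance : Add (Tri K) := ⟨fun x y => ⟨x.p + y.p, x.a + y.a, x.b + y.b, x.q + y.q, x.r + y.r⟩⟩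
instance : Neg (Tri K) := ⟨fun x => ⟨-x.p, -x.a, -x.b, -x.q, -x.r⟩⟩
instance : Mul (Tri K) := ⟨fun x y =>
  ⟨x.p * y.p, x.p * y.a + x.a * y.q, x.p * y.b + x.b * y.r, x.q * y.q, x.r * y.r⟩⟩
instance : SMul K (Tri K) := ⟨fun c x => ⟨c * x.p, c * x.a, c * x.b, c * x.q, c * x.r⟩⟩

@[simp] theorem zero_p : (0 : Tri K).p = 0 := rfl
@[simp] theorem zero_a : (0 : Tri K).a = 0 := rfl
@[simp] theorem zero_b : (0 : Tri K).b = 0 := rfl
@[simp] theorem zero_q : (0 : Tri K).q = 0 := rfl
@[simp] theorem zero_r : (0 : Tri K).r = 0 := rfl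
@[simp] theorem one_p : (1 : Tri K).p = 1 := rfl
@[simp] theorem one_a : (1 : Tri K).a = 0 := rfl
@[simp] theorem one_b : (1 : Tri K).b = 0 := rfl
@[simp] theorem one_q : (1 : Tri K).q = 1 := rfl
@[simp] theorem one_r : (1 : Tri K).r = 1 := rfl
@[simp] theorem add_p (x y : Tri K) : (x + y).p = x.p + y.p := rfl
@[simp] theorem add_a (x y : Tri K) : (x + y).a = x.a + y.a := rfl
@[simp] theorem add_b (x y : Tri K) : (x + y).b = x.b + y.b := rfl
@[simp] theorem add_q (x y : Tri K) : (x + y).q = x.q + y.q := rfl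
@[simp] theorem add_r (x y : Tri K) : (x + y).r = x.r + y.r := rfl
@[simp] theorem neg_p (x : Tri K) : (-x).p = -x.p := rfl
@[simp] theorem neg_a (x : Tri K) : (-x).a = -x.a := rfl
@[simp] theorem neg_b (x : Tri K) : (-x).b = -x.b := rfl
@[simp] theorem neg_q (x : Tri K) : (-x).q = -x.q := rfl
@[simp] theorem neg_r (x : Tri K) : (-x).r = -x.r := rfl
@[simp] theorem mul_p (x y : Tri K) : (x * y).p = x.p * y.p := rfl
@[simp] theorem mul_a (x y : Tri K) : (x * y).a = x.p * y.a + x.a * y.q := rfl
@[simp] theorem mul_b (x y : Tri K) : (x * y).b = x.p * y.b + x.b * y.r := rfl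
@[simp] theorem mul_q (x y : Tri K) : (x * y).q = x.q * y.q := rfl
@[simp] theorem mul_r (x y : Tri K) : (x * y).r = x.r * y.r := rfl
@[simp] theorem smul_p (c : K) (x : Tri K) : (c • x).p = c * x.p := rfl
@[simp] theorem smul_a (c : K) (x : Tri K) : (c • x).a = c * x.a := rfl
@[simp] theorem smul_b (c : K) (x : Tri K) : (c • x).b = c * x.b := rfl
@[simp] theorem smul_q (c : K) (x : Tri K) : (c • x).q = c * x.q := rfl
@[simp] theorem smul_r (c : K) (x : Tri K) : (c • x).r = c * x.r := rfl

instance : Ring (Tri K) where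
  add_assoc x y z := by ext <;> simp <;> ring
  zero_add x := by ext <;> simp
  add_zero x := by ext <;> simp
  add_comm x y := by ext <;> simp <;> ring
  left_distrib x y z := by ext <;> simp <;> ring
  right_distrib x y z := by ext <;> simp <;> ring
  zero_mul x := by ext <;> simp
  mul_zero x := by ext <;> simp
  mul_assoc x y z := by ext <;> simp <;> ring
  one_mul x := by ext <;> simp
  mul_one x := by ext <;> simp
  neg_add_cancel x := by ext <;> simp
  nsmul := nsmulRec
  zsmul := zsmulRec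

instance : Module K (Tri K) where
  one_smul x := by ext <;> simp
  mul_smul c d x := by ext <;> simp <;> ring
  smul_zero c := by ext <;> simp
  smul_add c x y := by ext <;> simp <;> ring
  add_smul c d x := by ext <;> simp <;> ring
  zero_smul x := by ext <;> simp

instance : Algebra K (Tri K) :=
  Algebra.ofModule (fun c x y => by ext <;> simp <;> ring) (fun c x y => by ext <;> simp <;> ring)

/-- `Tri K` is `K^5` as a vector space. -/
def equivFun : Tri K ≃ₗ[K] (Fin 5 → K) where
  toFun x := ![x.p, x.a, x.b, x.q, x.r]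
  invFun f := ⟨f 0, f 1, f 2, f 3, f 4⟩
  map_add' x y := by
    ext i
    fin_cases i <;> simp
  map_smul' c x := by
    ext i
    fin_cases i <;> simp
  left_inv x := by ext <;> simp
  right_inv f := by
    ext i
    fin_cases i <;> simp

instance : Module.Finite K (Tri K) := Module.Finite.equiv (equivFun (K := K)).symm

theorem finrank_eq : Module.finrank K (Tri K) = 5 := by
  rw [(equivFun (K := K)).finrank_eq]
  simp

/-- The automorphism exchanging the last two indices. -/
def swap : Tri K ≃ₐ[K] Tri K where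
  toFun x := ⟨x.p, x.b, x.a, x.r, x.q⟩
  invFun x := ⟨x.p, x.b, x.a, x.r, x.q⟩
  left_inv x := rfl
  right_inv x := rfl
  map_mul' x y := by ext <;> simp
  map_add' x y := by ext <;> simp
  commutes' c := by
    rw [Algebra.algebraMap_eq_smul_one]
    ext <;> simp

theorem isRightArtinian : IsRightArtinian (Tri K) :=
  isArtinian_of_tower K (inferInstance : IsArtinian K (Tri K))

theorem isLeftArtinian : IsArtinianRing (Tri K) :=
  isArtinian_of_tower K (inferInstance : IsArtinian K (Tri K))

/-- The three diagonal idempotents. -/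
def e (i : ULift.{u} (Fin 3)) : Tri K :=
  match i with
  | ⟨0⟩ => ⟨1, 0, 0, 0, 0⟩
  | ⟨1⟩ => ⟨0, 0, 0, 1, 0⟩
  | ⟨2⟩ => ⟨0, 0, 0, 0, 1⟩

theorem sum_e : ∑ i, e (K := K) i = 1 := by
  rw [← (Equiv.ulift (α := Fin 3)).symm.sum_comp, Fin.sum_univ_three]
  ext <;> simp [e]

theorem e_mul_self (i : ULift.{u} (Fin 3)) : e (K := K) i * e i = e i := by
  obtain ⟨i⟩ := i
  fin_cases i <;> ext <;> simp [e]

theorem e_mul_e (i j : ULift.{u} (Fin 3)) (h : i ≠ j) : e (K := K) i * e j = 0 := by
  obtain ⟨i⟩ := i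
  obtain ⟨j⟩ := j
  fin_cases i <;> fin_cases j <;> first | exact absurd rfl h | (ext <;> simp [e])

theorem isDistributive_right (i : ULift.{u} (Fin 3)) :
    IsDistributiveModule (Tri K)ᵐᵒᵖ (rightPeirce (e (K := K) i)) := by
  classical
  apply isDistributiveModule_of_forall
  obtain ⟨i⟩ := i
  fin_cases i
  · rintro ⟨m, hm⟩ ⟨n, hn⟩
    have hmq : m.q = 0 := by simpa [e] using (congrArg Tri.q (show e ⟨0⟩ * m = m from hm)).symm
    have hmr : m.r = 0 := by simpa [e] using (congrArg Tri.r (show e ⟨0⟩ * m = m from hm)).symm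
    have hnq : n.q = 0 := by simpa [e] using (congrArg Tri.q (show e ⟨0⟩ * n = n from hn)).symm
    have hnr : n.r = 0 := by simpa [e] using (congrArg Tri.r (show e ⟨0⟩ * n = n from hn)).symm
    by_cases hnp : n.p = 0
    · by_cases hmp : m.p = 0
      · refine ⟨MulOpposite.op ⟨0, 0, 0, if n.a = 0 then 0 else 1, if n.b = 0 then 0 else 1⟩,
          ⟨MulOpposite.op ⟨0, 0, 0, m.a / n.a, m.b / n.b⟩, ?_⟩, ⟨0, ?_⟩⟩
        · apply Subtype.ext
          show m * (_ : Tri K) = n * (_ : Tri K)
          ext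
          · simp
          · by_cases h : n.a = 0
            · simp [h]
            · simp [h, mul_div_cancel₀]
          · by_cases h : n.b = 0
            · simp [h]
            · simp [h, mul_div_cancel₀]
          · simp [hmq, hnq]
          · simp [hmr, hnr]
        · apply Subtype.ext
          show n * (1 - (_ : Tri K)) = m * (0 : Tri K)
          rw [sub_eq_add_neg]
          ext
          · simp [hnp]
          · by_cases h : n.a = 0
            · simp [h, hnp]
            · simp [h]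
          · by_cases h : n.b = 0
            · simp [h, hnp]
            · simp [h]
          · simp [hnq]
          · simp [hnr]
      · refine ⟨0, ⟨0, ?_⟩, ⟨MulOpposite.op ⟨n.p / m.p, n.a / m.p, n.b / m.p, 0, 0⟩, ?_⟩⟩
        · simp
        · rw [sub_zero, one_smul]
          apply Subtype.ext
          show n = m * (_ : Tri K)
          ext
          · simp [mul_div_cancel₀, hmp]
          · simp [mul_div_cancel₀, hmp]
          · simp [mul_div_cancel₀, hmp]
          · simp [hnq]
          · simp [hnr]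
    · refine ⟨1, ⟨MulOpposite.op ⟨m.p / n.p, m.a / n.p, m.b / n.p, 0, 0⟩, ?_⟩, ⟨0, ?_⟩⟩
      · rw [one_smul]
        apply Subtype.ext
        show m = n * (_ : Tri K)
        ext
        · simp [mul_div_cancel₀, hnp]
        · simp [mul_div_cancel₀, hnp]
        · simp [mul_div_cancel₀, hnp]
        · simp [hmq]
        · simp [hmr]
      · simp
  · rintro ⟨m, hm⟩ ⟨n, hn⟩
    have hmp : m.p = 0 := by simpa [e] using (congrArg Tri.p (show e ⟨1⟩ * m = m from hm)).symm
    have hma : m.a = 0 := by simpa [e] using (congrArg Tri.a (show e ⟨1⟩ * m = m from hm)).symm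
    have hmb : m.b = 0 := by simpa [e] using (congrArg Tri.b (show e ⟨1⟩ * m = m from hm)).symm
    have hmr : m.r = 0 := by simpa [e] using (congrArg Tri.r (show e ⟨1⟩ * m = m from hm)).symm
    have hnp : n.p = 0 := by simpa [e] using (congrArg Tri.p (show e ⟨1⟩ * n = n from hn)).symm
    have hna : n.a = 0 := by simpa [e] using (congrArg Tri.a (show e ⟨1⟩ * n = n from hn)).symm
    have hnb : n.b = 0 := by simpa [e] using (congrArg Tri.b (show e ⟨1⟩ * n = n from hn)).symm
    have hnr : n.r = 0 := by simpa [e] using (congrArg Tri.r (show e ⟨1⟩ * n = n from hn)).symm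
    by_cases hnq : n.q = 0
    · refine ⟨0, ⟨0, by simp⟩, ⟨0, ?_⟩⟩
      rw [sub_zero, one_smul, zero_smul]
      apply Subtype.ext
      show n = 0
      ext <;> simp [*]
    · refine ⟨1, ⟨MulOpposite.op ⟨0, 0, 0, m.q / n.q, 0⟩, ?_⟩, ⟨0, by simp⟩⟩
      rw [one_smul]
      apply Subtype.ext
      show m = n * (_ : Tri K)
      ext <;> simp [*, mul_div_cancel₀]
  · rintro ⟨m, hm⟩ ⟨n, hn⟩
    have hmp : m.p = 0 := by simpa [e] using (congrArg Tri.p (show e ⟨2⟩ * m = m from hm)).symm
    have hma : m.a = 0 := by simpa [e] using (congrArg Tri.a (show e ⟨2⟩ * m = m from hm)).symm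
    have hmb : m.b = 0 := by simpa [e] using (congrArg Tri.b (show e ⟨2⟩ * m = m from hm)).symm
    have hmq : m.q = 0 := by simpa [e] using (congrArg Tri.q (show e ⟨2⟩ * m = m from hm)).symm
    have hnp : n.p = 0 := by simpa [e] using (congrArg Tri.p (show e ⟨2⟩ * n = n from hn)).symm
    have hna : n.a = 0 := by simpa [e] using (congrArg Tri.a (show e ⟨2⟩ * n = n from hn)).symm
    have hnb : n.b = 0 := by simpa [e] using (congrArg Tri.b (show e ⟨2⟩ * n = n from hn)).symm
    have hnq : n.q = 0 := by simpa [e] using (congrArg Tri.q (show e ⟨2⟩ * n = n from hn)).symm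
    by_cases hnr : n.r = 0
    · refine ⟨0, ⟨0, by simp⟩, ⟨0, ?_⟩⟩
      rw [sub_zero, one_smul, zero_smul]
      apply Subtype.ext
      show n = 0
      ext <;> simp [*]
    · refine ⟨1, ⟨MulOpposite.op ⟨0, 0, 0, 0, m.r / n.r⟩, ?_⟩, ⟨0, by simp⟩⟩
      rw [one_smul]
      apply Subtype.ext
      show m = n * (_ : Tri K)
      ext <;> simp [*, mul_div_cancel₀]

theorem isRightSemidistributive : IsRightSemidistributive (Tri K) :=
  ⟨ULift.{u} (Fin 3), inferInstance, fun i => rightPeirce (e i),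
    isInternal_rightPeirce e sum_e e_mul_self e_mul_e, isDistributive_right⟩

theorem isDistributive_left (i : ULift.{u} (Fin 3)) :
    IsDistributiveModule (Tri K) (leftPeirce (e (K := K) i)) := by
  apply isDistributiveModule_of_forall
  obtain ⟨i⟩ := i
  fin_cases i
  · rintro ⟨m, hm⟩ ⟨n, hn⟩
    have hma : m.a = 0 := by simpa [e] using (congrArg Tri.a (show m * e ⟨0⟩ = m from hm)).symm
    have hmb : m.b = 0 := by simpa [e] using (congrArg Tri.b (show m * e ⟨0⟩ = m from hm)).symm
    have hmq : m.q = 0 := by simpa [e] using (congrArg Tri.q (show m * e ⟨0⟩ = m from hm)).symm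
    have hmr : m.r = 0 := by simpa [e] using (congrArg Tri.r (show m * e ⟨0⟩ = m from hm)).symm
    have hna : n.a = 0 := by simpa [e] using (congrArg Tri.a (show n * e ⟨0⟩ = n from hn)).symm
    have hnb : n.b = 0 := by simpa [e] using (congrArg Tri.b (show n * e ⟨0⟩ = n from hn)).symm
    have hnq : n.q = 0 := by simpa [e] using (congrArg Tri.q (show n * e ⟨0⟩ = n from hn)).symm
    have hnr : n.r = 0 := by simpa [e] using (congrArg Tri.r (show n * e ⟨0⟩ = n from hn)).symm
    by_cases hnp : n.p = 0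
    · refine ⟨0, ⟨0, by simp⟩, ⟨0, ?_⟩⟩
      rw [sub_zero, one_smul, zero_smul]
      apply Subtype.ext
      show n = 0
      ext <;> simp [*]
    · refine ⟨1, ⟨⟨m.p / n.p, 0, 0, 0, 0⟩, ?_⟩, ⟨0, by simp⟩⟩
      rw [one_smul]
      apply Subtype.ext
      show m = (_ : Tri K) * n
      ext <;> simp [*]
  · rintro ⟨m, hm⟩ ⟨n, hn⟩
    have hmp : m.p = 0 := by simpa [e] using (congrArg Tri.p (show m * e ⟨1⟩ = m from hm)).symm
    have hmb : m.b = 0 := by simpa [e] using (congrArg Tri.b (show m * e ⟨1⟩ = m from hm)).symm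
    have hmr : m.r = 0 := by simpa [e] using (congrArg Tri.r (show m * e ⟨1⟩ = m from hm)).symm
    have hnp : n.p = 0 := by simpa [e] using (congrArg Tri.p (show n * e ⟨1⟩ = n from hn)).symm
    have hnb : n.b = 0 := by simpa [e] using (congrArg Tri.b (show n * e ⟨1⟩ = n from hn)).symm
    have hnr : n.r = 0 := by simpa [e] using (congrArg Tri.r (show n * e ⟨1⟩ = n from hn)).symm
    by_cases hnq : n.q = 0
    · by_cases hmq : m.q = 0
      · by_cases hna : n.a = 0
        · refine ⟨0, ⟨0, by simp⟩, ⟨0, ?_⟩⟩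
          rw [sub_zero, one_smul, zero_smul]
          apply Subtype.ext
          show n = 0
          ext <;> simp [*]
        · refine ⟨1, ⟨⟨m.a / n.a, 0, 0, 0, 0⟩, ?_⟩, ⟨0, by simp⟩⟩
          rw [one_smul]
          apply Subtype.ext
          show m = (_ : Tri K) * n
          ext <;> simp [*]
      · refine ⟨0, ⟨0, by simp⟩, ⟨⟨0, n.a / m.q, 0, n.q / m.q, 0⟩, ?_⟩⟩
        rw [sub_zero, one_smul]
        apply Subtype.ext
        show n = (_ : Tri K) * m
        ext <;> simp [*]
    · refine ⟨1, ⟨⟨0, m.a / n.q, 0, m.q / n.q, 0⟩, ?_⟩, ⟨0, by simp⟩⟩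
      rw [one_smul]
      apply Subtype.ext
      show m = (_ : Tri K) * n
      ext <;> simp [*]
  · rintro ⟨m, hm⟩ ⟨n, hn⟩
    have hmp : m.p = 0 := by simpa [e] using (congrArg Tri.p (show m * e ⟨2⟩ = m from hm)).symm
    have hma : m.a = 0 := by simpa [e] using (congrArg Tri.a (show m * e ⟨2⟩ = m from hm)).symm
    have hmq : m.q = 0 := by simpa [e] using (congrArg Tri.q (show m * e ⟨2⟩ = m from hm)).symm
    have hnp : n.p = 0 := by simpa [e] using (congrArg Tri.p (show n * e ⟨2⟩ = n from hn)).symm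
    have hna : n.a = 0 := by simpa [e] using (congrArg Tri.a (show n * e ⟨2⟩ = n from hn)).symm
    have hnq : n.q = 0 := by simpa [e] using (congrArg Tri.q (show n * e ⟨2⟩ = n from hn)).symm
    by_cases hnr : n.r = 0
    · by_cases hmr : m.r = 0
      · by_cases hnb : n.b = 0
        · refine ⟨0, ⟨0, by simp⟩, ⟨0, ?_⟩⟩
          rw [sub_zero, one_smul, zero_smul]
          apply Subtype.ext
          show n = 0
          ext <;> simp [*]
        · refine ⟨1, ⟨⟨m.b / n.b, 0, 0, 0, 0⟩, ?_⟩, ⟨0, by simp⟩⟩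
          rw [one_smul]
          apply Subtype.ext
          show m = (_ : Tri K) * n
          ext <;> simp [*]
      · refine ⟨0, ⟨0, by simp⟩, ⟨⟨0, 0, n.b / m.r, 0, n.r / m.r⟩, ?_⟩⟩
        rw [sub_zero, one_smul]
        apply Subtype.ext
        show n = (_ : Tri K) * m
        ext <;> simp [*]
    · refine ⟨1, ⟨⟨0, 0, m.b / n.r, 0, m.r / n.r⟩, ?_⟩, ⟨0, by simp⟩⟩
      rw [one_smul]
      apply Subtype.ext
      show m = (_ : Tri K) * n
      ext <;> simp [*]

theorem isLeftSemidistributive : IsLeftSemidistributive (Tri K) :=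
  ⟨ULift.{u} (Fin 3), inferInstance, fun i => leftPeirce (e i),
    isInternal_leftPeirce e sum_e e_mul_self e_mul_e, isDistributive_left⟩

end Tri

end Pool.Agent.Lib.MP_d4f5ca_al
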