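import Mathlib
import Pool.Agent.Lib.MP_d4f5ca_al.Defs
import Pool.Agent.Lib.MP_d4f5ca_al.SkewLaurent
import Pool.Agent.Lib.MP_d4f5ca_al.Example

set_option autoImplicit false

universe u

namespace Pool.Agent.Lib.MP_d4f5ca_al

namespace SkewLaurent

variable {A : Type u} [Ring A] {φ : A ≃+* A}

theorem coeff_single_mul (k : ℤ) (c : A) (f : SkewLaurent A φ) (n : ℤ) :
    (single k c * f).coeff n = c * ((φ ^ k : RingAut A) (f.coeff (n - k))) := by
  rw [coeff_mul, finsum_eq_single _ k]
  · rw [coeff_single, if_pos rfl]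
  · intro i hi
    rw [coeff_single, if_neg hi, zero_mul]

theorem coeff_mul_eq_sum (f g : SkewLaurent A φ) (n N M : ℤ) (hN : ∀ i < N, f.coeff i = 0)
    (hM : ∀ i < M, g.coeff i = 0) :
    (f * g).coeff n =
      ∑ i ∈ Finset.Icc N (n - M), f.coeff i * ((φ ^ i : RingAut A) (g.coeff (n - i))) := by
  rw [coeff_mul]
  apply finsum_eq_sum_of_support_subset
  intro i hi
  rw [Function.mem_support] at hi
  rw [Finset.coe_Icc, Set.mem_Icc]
  constructor
  · by_contra h
    exact hi (by rw [hN i (not_le.mp h), zero_mul])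
  · by_contra h
    exact hi (by rw [hM (n - i) (by omega), map_zero, mul_zero])

/-- Sanity check: `(a x^i) (b x^j) = a φ^i(b) x^(i+j)`. -/
theorem single_mul_single (i j : ℤ) (a b : A) :
    (single i a * single j b : SkewLaurent A φ) =
      single (i + j) (a * ((φ ^ i : RingAut A) b)) := by
  ext1
  funext n
  rw [coeff_single_mul, coeff_single, coeff_single]
  by_cases h : n = i + j
  · rw [if_pos h, if_pos (by omega)]
  · rw [if_neg h, if_neg (by omega), map_zero, mul_zero]

/-- Sanity check: `x a = φ(a) x`. -/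
theorem x_mul (a : A) :
    (single 1 1 * single 0 a : SkewLaurent A φ) = single 0 (φ a) * single 1 1 := by
  rw [single_mul_single, single_mul_single, one_mul, zpow_one, map_one, mul_one, add_comm]

end SkewLaurent

theorem hahn_coeff_mul_eq_sum {K : Type u} [Field K] (f g : HahnSeries ℤ K) (n N M : ℤ)
    (hN : ∀ i < N, f.coeff i = 0) (hM : ∀ i < M, g.coeff i = 0) :
    (f * g).coeff n = ∑ i ∈ Finset.Icc N (n - M), f.coeff i * g.coeff (n - i) := by
  classical
  rw [HahnSeries.coeff_mul]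
  have h1 : ∀ ij ∈ Finset.antidiagonal f.isPWO_support g.isPWO_support n,
      f.coeff ij.1 * g.coeff ij.2 = f.coeff ij.1 * g.coeff (n - ij.1) := by
    intro ij hij
    rw [Finset.mem_antidiagonal] at hij
    rw [show ij.2 = n - ij.1 by omega]
  rw [Finset.sum_congr rfl h1]
  rw [← Finset.sum_image (s := Finset.antidiagonal f.isPWO_support g.isPWO_support n)
    (g := Prod.fst) (f := fun i => f.coeff i * g.coeff (n - i))]
  · apply Finset.sum_subset
    · intro i hi
      rw [Finset.mem_image] at hi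
      obtain ⟨⟨a, b⟩, hab, rfl⟩ := hi
      rw [Finset.mem_antidiagonal] at hab
      obtain ⟨ha, hb, hab⟩ := hab
      simp only at ha hb hab ⊢
      rw [HahnSeries.mem_support] at ha hb
      rw [Finset.mem_Icc]
      constructor
      · by_contra h
        exact ha (hN a (not_le.mp h))
      · by_contra h
        exact hb (hM b (by omega))
    · intro i _ hi
      by_contra h
      apply hi
      rw [Finset.mem_image]
      refine ⟨(i, n - i), ?_, rfl⟩
      rw [Finset.mem_antidiagonal, HahnSeries.mem_support, HahnSeries.mem_support]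
      exact ⟨left_ne_zero_of_mul h, right_ne_zero_of_mul h, by simp⟩
  · intro x hx y hy hxy
    rw [Finset.mem_coe, Finset.mem_antidiagonal] at hx hy
    ext
    · exact hxy
    · omega

open SkewLaurent

variable (K : Type u) [Field K]

/-- The swap automorphism as a ring automorphism. -/
abbrev sw : Tri K ≃+* Tri K := (Tri.swap (K := K)).toRingEquiv

theorem sw_zpow_p (n : ℤ) (x : Tri K) : ((sw K ^ n : RingAut (Tri K)) x).p = x.p := by
  induction n generalizing x with
  | zero => rfl
  | succ n ih =>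
    rw [zpow_add_one, RingAut.mul_apply, ih]
    rfl
  | pred n ih =>
    rw [zpow_sub_one, RingAut.mul_apply, ih]
    rfl

theorem sw_zpow_diag (n : ℤ) (c : K) :
    ((sw K ^ n : RingAut (Tri K)) ⟨c, 0, 0, 0, 0⟩) = ⟨c, 0, 0, 0, 0⟩ := by
  induction n with
  | zero => rfl
  | succ n ih =>
    rw [zpow_add_one, RingAut.mul_apply]
    exact ih
  | pred n ih =>
    rw [zpow_sub_one, RingAut.mul_apply]
    exact ih

/-- The `(1,1)` coefficients of a skew Laurent series over `Tri K`. -/
noncomputable def P (f : SkewLaurent (Tri K) (sw K)) : HahnSeries ℤ K :=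
  HahnSeries.ofSuppBddBelow (fun n => (f.coeff n).p) (by
    obtain ⟨N, hN⟩ := f.bdd
    refine ⟨N, fun n hn => ?_⟩
    by_contra hlt
    apply hn
    show (f.coeff n).p = 0
    rw [hN n (not_le.mp hlt)]
    rfl)

theorem P_coeff (f : SkewLaurent (Tri K) (sw K)) (n : ℤ) : (P K f).coeff n = (f.coeff n).p := rfl

/-- Laurent series over `K`, placed in the `(1,1)` corner. -/
noncomputable def S (g : HahnSeries ℤ K) : SkewLaurent (Tri K) (sw K) :=
  ⟨fun n => ⟨g.coeff n, 0, 0, 0, 0⟩, by
    refine ⟨g.order, fun n hn => ?_⟩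
    rw [HahnSeries.coeff_eq_zero_of_lt_order hn]
    rfl⟩

theorem S_coeff (g : HahnSeries ℤ K) (n : ℤ) : (S K g).coeff n = ⟨g.coeff n, 0, 0, 0, 0⟩ := rfl

/-- `c ↦ c e₁₁` as an additive map. -/
def corner : K →+ Tri K where
  toFun c := ⟨c, 0, 0, 0, 0⟩
  map_zero' := rfl
  map_add' c d := by ext <;> simp

theorem mul_S (f : SkewLaurent (Tri K) (sw K)) (g : HahnSeries ℤ K) :
    f * S K g = S K (P K f * g) := by
  obtain ⟨N, hN⟩ := f.bdd
  have hM : ∀ i < g.order, g.coeff i = 0 := fun i hi => HahnSeries.coeff_eq_zero_of_lt_order hi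
  ext1
  funext n
  rw [S_coeff, coeff_mul_eq_sum f (S K g) n N g.order hN
      (fun i hi => by rw [S_coeff, hM i hi]; rfl),
    hahn_coeff_mul_eq_sum (P K f) g n N g.order (fun i hi => by rw [P_coeff, hN i hi]; rfl) hM]
  show _ = corner K _
  rw [map_sum]
  refine Finset.sum_congr rfl fun i _ => ?_
  rw [S_coeff, sw_zpow_diag, P_coeff]
  show _ = (⟨_, 0, 0, 0, 0⟩ : Tri K)
  ext <;> simp

/-- The right ideal of series whose `(1,1)` coefficients vanish. -/
def kerP : Submodule (SkewLaurent (Tri K) (sw K))ᵐᵒᵖ (SkewLaurent (Tri K) (sw K)) where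
  carrier := {f | ∀ n, (f.coeff n).p = 0}
  add_mem' {f g} hf hg n := by
    rw [coeff_add, Tri.add_p, hf n, hg n, add_zero]
  zero_mem' n := rfl
  smul_mem' c f hf n := by
    rw [MulOpposite.smul_eq_mul_unop]
    obtain ⟨N, hN⟩ := f.bdd
    obtain ⟨M, hM⟩ := c.unop.bdd
    rw [coeff_mul_eq_sum f c.unop n N M hN hM]
    have h : ∀ s : Finset ℤ, (∑ i ∈ s, f.coeff i *
        ((sw K ^ i : RingAut (Tri K)) (c.unop.coeff (n - i)))).p = 0 := by
      intro s
      induction s using Finset.cons_induction with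
      | empty => rfl
      | cons a s ha ih =>
        rw [Finset.sum_cons, Tri.add_p, ih, add_zero, Tri.mul_p, hf a, zero_mul]
    exact h _

/-- If `R_R` is a sum of submodules, one of them contains `e₁₁`. -/
theorem exists_mem {ι : Type u}
    (N : ι → Submodule (SkewLaurent (Tri K) (sw K))ᵐᵒᵖ (SkewLaurent (Tri K) (sw K)))
    (h : iSup N = ⊤) : ∃ i, S K 1 ∈ N i := by
  by_contra hcon
  push Not at hcon
  have h1 : iSup N ≤ kerP K := by
    apply iSup_le
    intro i f hf
    by_contra hne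
    apply hcon i
    have hP : P K f ≠ 0 := by
      intro h0
      apply hne
      intro n
      rw [← P_coeff, h0]
      rfl
    have h2 : f * S K (P K f)⁻¹ = S K 1 := by
      rw [mul_S, mul_inv_cancel₀ hP]
    rw [← h2]
    exact (N i).smul_mem (MulOpposite.op (S K (P K f)⁻¹)) hf
  rw [h] at h1
  have h2 : (1 : SkewLaurent (Tri K) (sw K)) ∈ kerP K := h1 Submodule.mem_top
  have h3 := h2 0
  rw [coeff_one, if_pos rfl] at h3
  exact one_ne_zero h3

/-- `u = e₁₂`. -/
def uu : SkewLaurent (Tri K) (sw K) := single 0 ⟨0, 1, 0, 0, 0⟩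
/-- `v = e₁₃ x`. -/
def vv : SkewLaurent (Tri K) (sw K) := single 1 ⟨0, 0, 1, 0, 0⟩

theorem uu_mul (f : SkewLaurent (Tri K) (sw K)) (n : ℤ) :
    (uu K * f).coeff n = ⟨0, (f.coeff n).q, 0, 0, 0⟩ := by
  rw [uu, coeff_single_mul, sub_zero, zpow_zero]
  show _ * f.coeff n = _
  ext <;> simp

theorem vv_mul (f : SkewLaurent (Tri K) (sw K)) (n : ℤ) :
    (vv K * f).coeff n = ⟨0, 0, (f.coeff (n - 1)).q, 0, 0⟩ := by
  rw [vv, coeff_single_mul, zpow_one]
  show _ * (⟨(f.coeff (n - 1)).p, (f.coeff (n - 1)).b, (f.coeff (n - 1)).a,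
    (f.coeff (n - 1)).r, (f.coeff (n - 1)).q⟩ : Tri K) = _
  ext <;> simp

theorem S_mul_uu : S K 1 * uu K = uu K := by
  have h : S K 1 = single 0 ⟨1, 0, 0, 0, 0⟩ := by
    ext1
    funext n
    rw [S_coeff, coeff_single, HahnSeries.coeff_one]
    by_cases hn : n = 0
    · rw [if_pos hn, if_pos hn]
    · rw [if_neg hn, if_neg hn]
      rfl
  rw [h]
  ext1
  funext n
  rw [coeff_single_mul, sub_zero, zpow_zero, uu, coeff_single]
  by_cases hn : n = 0
  · rw [if_pos hn]
    show _ * (_ : Tri K) = _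
    ext <;> simp
  · rw [if_neg hn, map_zero, mul_zero]

theorem S_mul_vv : S K 1 * vv K = vv K := by
  have h : S K 1 = single 0 ⟨1, 0, 0, 0, 0⟩ := by
    ext1
    funext n
    rw [S_coeff, coeff_single, HahnSeries.coeff_one]
    by_cases hn : n = 0
    · rw [if_pos hn, if_pos hn]
    · rw [if_neg hn, if_neg hn]
      rfl
  rw [h]
  ext1
  funext n
  rw [coeff_single_mul, sub_zero, zpow_zero, vv, coeff_single]
  by_cases hn : n = 1
  · rw [if_pos hn]
    show _ * (_ : Tri K) = _
    ext <;> simp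
  · rw [if_neg hn, map_zero, mul_zero]

/-- A right ideal containing `e₁₁` is not distributive. -/
theorem not_distributive
    (N : Submodule (SkewLaurent (Tri K) (sw K))ᵐᵒᵖ (SkewLaurent (Tri K) (sw K)))
    (h : S K 1 ∈ N) : ¬ IsDistributiveModule (SkewLaurent (Tri K) (sw K))ᵐᵒᵖ N := by
  intro hd
  have hu : uu K ∈ N := by
    rw [← S_mul_uu]
    exact N.smul_mem (MulOpposite.op (uu K)) h
  have hv : vv K ∈ N := by
    rw [← S_mul_vv]
    exact N.smul_mem (MulOpposite.op (vv K)) h
  let u' : N := ⟨uu K, hu⟩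
  let v' : N := ⟨vv K, hv⟩
  have key := hd (Submodule.span _ {u' + v'}) (Submodule.span _ {u'})
    (Submodule.span _ {v'})
  have hmem : u' + v' ∈ Submodule.span (SkewLaurent (Tri K) (sw K))ᵐᵒᵖ {u' + v'} ⊓
      (Submodule.span (SkewLaurent (Tri K) (sw K))ᵐᵒᵖ {u'} ⊔
        Submodule.span (SkewLaurent (Tri K) (sw K))ᵐᵒᵖ {v'}) := by
    refine ⟨Submodule.mem_span_singleton_self _, Submodule.add_mem_sup
      (Submodule.mem_span_singleton_self _) (Submodule.mem_span_singleton_self _)⟩
  rw [key, Submodule.mem_sup] at hmem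
  obtain ⟨y, ⟨hy1, hy2⟩, z, ⟨hz1, hz2⟩, hyz⟩ := hmem
  obtain ⟨r1, hr1⟩ := Submodule.mem_span_singleton.mp hy1
  obtain ⟨r2, hr2⟩ := Submodule.mem_span_singleton.mp hy2
  obtain ⟨s1, hs1⟩ := Submodule.mem_span_singleton.mp hz1
  obtain ⟨s2, hs2⟩ := Submodule.mem_span_singleton.mp hz2
  -- y = (u+v) r = u r'
  have e1 : (uu K + vv K) * r1.unop = uu K * r2.unop := by
    have := congrArg Subtype.val (hr1.trans hr2.symm)
    exact this
  have e2 : (uu K + vv K) * s1.unop = vv K * s2.unop := by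
    have := congrArg Subtype.val (hs1.trans hs2.symm)
    exact this
  have q1 : ∀ n, (r1.unop.coeff n).q = 0 := by
    intro n
    have h1 := congrArg (fun f : SkewLaurent (Tri K) (sw K) => (f.coeff (n + 1)).b) e1
    simp only [add_mul, coeff_add, uu_mul, vv_mul, Tri.add_b] at h1
    simpa using h1
  have q2 : ∀ n, (s1.unop.coeff n).q = 0 := by
    intro n
    have h1 := congrArg (fun f : SkewLaurent (Tri K) (sw K) => (f.coeff n).a) e2
    simp only [add_mul, coeff_add, uu_mul, vv_mul, Tri.add_a] at h1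
    simpa using h1
  have y0 : (y : SkewLaurent (Tri K) (sw K)) = 0 := by
    rw [← hr1]
    show (uu K + vv K) * r1.unop = 0
    ext1
    funext n
    rw [add_mul, coeff_add, uu_mul, vv_mul, q1, q1]
    ext <;> simp
  have z0 : (z : SkewLaurent (Tri K) (sw K)) = 0 := by
    rw [← hs1]
    show (uu K + vv K) * s1.unop = 0
    ext1
    funext n
    rw [add_mul, coeff_add, uu_mul, vv_mul, q2, q2]
    ext <;> simp
  have h0 : uu K + vv K = 0 := by
    have h1 := congrArg Subtype.val hyz
    rw [Submodule.coe_add, y0, z0, add_zero] at h1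
    exact h1.symm
  have h1 := congrArg (fun f : SkewLaurent (Tri K) (sw K) => (f.coeff 0).a) h0
  simp only [coeff_add, Tri.add_a, uu, vv, coeff_single] at h1
  simp at h1

theorem not_isRightSemidistributive :
    ¬ IsRightSemidistributive (SkewLaurent (Tri K) (sw K)) := by
  rintro ⟨ι, _, N, hN, hd⟩
  obtain ⟨i, hi⟩ := exists_mem K N hN.submodule_iSup_eq_top
  exact not_distributive K (N i) hi (hd i)

end Pool.Agent.Lib.MP_d4f5ca_al
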